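import Pool.Agent.H639Z.OP.Basic

set_option autoImplicit false
open MeasureTheory Filter Topology
open scoped ENNReal

namespace Pool.Agent.H639Z.OP

variable {d : ℕ}

namespace Trans

theorem sm_sub {φ : X d → ℝ} (hφ : Sm φ) (y : X d) : Sm (fun x => φ (x - y)) :=
  hφ.comp (contDiff_id.sub contDiff_const)

theorem cs_sub {φ : X d → ℝ} (hc : HasCompactSupport φ) (y : X d) :
    HasCompactSupport (fun x => φ (x - y)) :=
  hc.comp_homeomorph (Homeomorph.subRight y)

theorem pd_sub {φ : X d → ℝ} (hφ : Sm φ) (y : X d) (i : Fin d) (x : X d) :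
    pd (fun x => φ (x - y)) i x = pd φ i (x - y) := by
  unfold pd
  have h1 : HasFDerivAt φ (fderiv ℝ φ (x - y)) (x - y) :=
    (hφ.differentiable (by simp) _).hasFDerivAt
  have h2 : HasFDerivAt (fun x : X d => x - y) (ContinuousLinearMap.id ℝ (X d)) x :=
    (hasFDerivAt_id x).sub_const y
  have h3 := h1.comp x h2
  have h4 : fderiv ℝ (fun x => φ (x - y)) x = _ := h3.fderiv
  rw [h4]; simp

theorem sm_rsub {φ : X d → ℝ} (hφ : Sm φ) (y : X d) : Sm (fun x => φ (y - x)) :=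
  hφ.comp (contDiff_const.sub contDiff_id)

theorem cs_rsub {φ : X d → ℝ} (hc : HasCompactSupport φ) (y : X d) :
    HasCompactSupport (fun x => φ (y - x)) :=
  hc.comp_homeomorph (Homeomorph.subLeft y)

theorem pd_rsub {φ : X d → ℝ} (hφ : Sm φ) (y : X d) (i : Fin d) (x : X d) :
    pd (fun x => φ (y - x)) i x = - pd φ i (y - x) := by
  unfold pd
  have h1 : HasFDerivAt φ (fderiv ℝ φ (y - x)) (y - x) :=
    (hφ.differentiable (by simp) _).hasFDerivAt
  have h2 : HasFDerivAt (fun x : X d => y - x) (-ContinuousLinearMap.id ℝ (X d)) x :=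
    (hasFDerivAt_id x).const_sub y
  have h3 := h1.comp x h2
  have h4 : fderiv ℝ (fun x => φ (y - x)) x = _ := h3.fderiv
  rw [h4]; simp

theorem fderiv_sum (φ : X d → ℝ) (x y : X d) : fderiv ℝ φ x y = ∑ i, y i * pd φ i x := by
  unfold pd
  conv_lhs => rw [show y = ∑ i, y i • (Pi.single i (1 : ℝ) : X d) by
    ext j; simp [Finset.sum_apply, Pi.single_apply]]
  rw [map_sum]
  simp

theorem dense {w : X d → ℝ} (hw : MemLp w 2 volume) {ε : ℝ} (hε : 0 < ε) :
    ∃ φ : X d → ℝ, Sm φ ∧ HasCompactSupport φ ∧ ∫ x, (w x - φ x) ^ 2 ≤ ε := by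
  obtain ⟨g, hg1, hg2, hg3⟩ := hw.exist_eLpNorm_sub_le (by simp) (by simp) (Real.sqrt_pos.2 hε)
  refine ⟨g, hg2, hg1, ?_⟩
  have hm : MemLp (w - g) 2 volume := hw.sub (test_memLp hg2 hg1)
  rw [hm.eLpNorm_eq_integral_rpow_norm (by simp) (by simp),
    ENNReal.ofReal_le_ofReal_iff (Real.sqrt_nonneg _)] at hg3
  have h0 : 0 ≤ ∫ x, (w x - g x) ^ 2 := integral_nonneg fun _ => sq_nonneg _
  have h1 : ∫ a, ‖(w - g) a‖ ^ (2 : ℝ≥0∞).toReal = ∫ x, (w x - g x) ^ 2 := by
    congr 1; funext x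
    simp
  rw [h1] at hg3
  have h2 : (∫ x, (w x - g x) ^ 2) ^ ((2 : ℝ≥0∞).toReal)⁻¹ = Real.sqrt (∫ x, (w x - g x) ^ 2) := by
    rw [Real.sqrt_eq_rpow]; simp
  rw [h2] at hg3
  exact (Real.sqrt_le_sqrt_iff hε.le).1 hg3

theorem deriv_conv {f : P d} (hf : H1 f) {g : X d → ℝ} (hg : Sm g) (hc : HasCompactSupport g)
    (y : X d) (s : ℝ) :
    HasDerivAt (fun s : ℝ => ∫ t, f.1 t * g (s • y - t))
      (∫ t, (∑ i, y i * f.2 i t) * g (s • y - t)) s := by
  have hl : LocallyIntegrable f.1 volume := hf.u2.locallyIntegrable (by simp)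
  have hg1 : ContDiff ℝ 1 g := hg.of_le (by simp)
  have h1 := hc.hasFDerivAt_convolution_right (ContinuousLinearMap.mul ℝ ℝ) hl hg1 (s • y)
  have h2 : HasDerivAt (fun s : ℝ => s • y) y s := by
    simpa using (hasDerivAt_id s).smul_const y
  have h3 := h1.comp_hasDerivAt s h2
  rw [convolution_precompR_apply _ hl (hc.fderiv ℝ) (hg1.continuous_fderiv one_ne_zero)] at h3
  have h4 : (convolution f.1 (fun a => fderiv ℝ g a y) (ContinuousLinearMap.mul ℝ ℝ) volume)
      (s • y) = ∫ t, (∑ i, y i * f.2 i t) * g (s • y - t) := by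
    rw [convolution_def]
    simp only [ContinuousLinearMap.mul_apply']
    have hψ := sm_rsub hg (s • y)
    have hψc := cs_rsub hc (s • y)
    have e1 : ∀ t, f.1 t * fderiv ℝ g (s • y - t) y =
        ∑ i, (- y i) * (f.1 t * pd (fun x => g (s • y - x)) i t) := by
      intro t
      rw [fderiv_sum, Finset.mul_sum]
      refine Finset.sum_congr rfl fun i _ => ?_
      rw [pd_rsub hg]; ring
    have e2 : ∀ t, (∑ i, y i * f.2 i t) * g (s • y - t) =
        ∑ i, y i * (f.2 i t * g (s • y - t)) := by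
      intro t
      rw [Finset.sum_mul]
      exact Finset.sum_congr rfl fun i _ => by ring
    simp_rw [e1, e2]
    rw [integral_finsetSum _ fun i _ => (int_mul hf.u2 (pd_memLp hψ hψc i)).const_mul _,
      integral_finsetSum _ fun i _ => (int_mul (hf.g2 i) (test_memLp hψ hψc)).const_mul _]
    refine Finset.sum_congr rfl fun i _ => ?_
    rw [integral_const_mul, integral_const_mul, hf.weak i _ hψ hψc]; ring
  rw [h4] at h3
  exact h3

theorem bound {f : P d} (hf : H1 f) {g : X d → ℝ} (hg : Sm g) (hc : HasCompactSupport g)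
    (y z : X d) :
    ∫ t, (∑ i, y i * f.2 i t) * g (z - t) ≤ (d * ‖y‖ ^ 2 * G f f + ∫ t, g t ^ 2) / 2 := by
  have hψ := test_memLp (sm_rsub hg z) (cs_rsub hc z)
  have hs : MemLp (fun t => ∑ i, y i * f.2 i t) 2 volume :=
    memLp_finsetSum _ fun i _ => (hf.g2 i).const_mul _
  have e1 : ∫ t, g t ^ 2 = ∫ t, g (z - t) * g (z - t) := by
    rw [← integral_sub_left_eq_self (fun t => g t ^ 2) volume z]
    simp_rw [sq]
  have hi : Integrable (fun t => ∑ i, f.2 i t * f.2 i t) volume :=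
    integrable_finsetSum _ fun i _ => int_mul (hf.g2 i) (hf.g2 i)
  have e2 : G f f = ∫ t, ∑ i, f.2 i t * f.2 i t := by
    rw [G, integral_finsetSum _ fun i _ => int_mul (hf.g2 i) (hf.g2 i)]
  rw [e1, e2, ← integral_const_mul, ← integral_add (hi.const_mul _) (int_mul hψ hψ),
    ← integral_div]
  refine integral_mono (int_mul hs hψ) (((hi.const_mul _).add (int_mul hψ hψ)).div_const _)
    fun t => ?_
  have h1 : (∑ i, y i * f.2 i t) ^ 2 ≤ (∑ i, y i ^ 2) * ∑ i, f.2 i t ^ 2 :=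
    Finset.sum_mul_sq_le_sq_mul_sq _ _ _
  have h2 : ∑ i, y i ^ 2 ≤ d * ‖y‖ ^ 2 := by
    calc ∑ i, y i ^ 2 ≤ ∑ _i : Fin d, ‖y‖ ^ 2 := Finset.sum_le_sum fun i _ => by
          have := norm_le_pi_norm y i
          rw [← sq_abs]
          exact pow_le_pow_left₀ (abs_nonneg _) this 2
      _ = _ := by simp
  have h3 : 0 ≤ ∑ i, f.2 i t ^ 2 := Finset.sum_nonneg fun _ _ => sq_nonneg _
  have h4 : ∑ i, f.2 i t * f.2 i t = ∑ i, f.2 i t ^ 2 := by simp_rw [sq]
  have h5 := mul_le_mul_of_nonneg_right h2 h3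
  simp only [h4]
  nlinarith [sq_nonneg ((∑ i, y i * f.2 i t) - g (z - t))]

theorem pair {f : P d} (hf : H1 f) {φ : X d → ℝ} (hφ : Sm φ) (hc : HasCompactSupport φ)
    (y : X d) :
    (∫ x, f.1 (x + y) * φ x) - ∫ x, f.1 x * φ x ≤ (d * ‖y‖ ^ 2 * G f f + ∫ t, φ t ^ 2) / 2 := by
  have hg := sm_rsub hφ 0
  have hgc := cs_rsub hc 0
  obtain ⟨c, _, hc2⟩ := exists_hasDerivAt_eq_slope
    (fun s : ℝ => ∫ t, f.1 t * φ (0 - (s • y - t)))
    (fun s : ℝ => ∫ t, (∑ i, y i * f.2 i t) * φ (0 - (s • y - t))) zero_lt_one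
    (fun s _ => (deriv_conv hf hg hgc y s).continuousAt.continuousWithinAt)
    (fun s _ => deriv_conv hf hg hgc y s)
  have hb := bound hf hg hgc y (c • y)
  have e1 : ∫ t, φ (0 - t) ^ 2 = ∫ t, φ t ^ 2 :=
    integral_sub_left_eq_self (fun t => φ t ^ 2) volume 0
  have e2 : ∫ x, f.1 (x + y) * φ x = ∫ t, f.1 t * φ (0 - ((1 : ℝ) • y - t)) := by
    rw [← integral_add_right_eq_self (fun t => f.1 t * φ (0 - ((1 : ℝ) • y - t))) y]
    simp
  have e3 : ∫ x, f.1 x * φ x = ∫ t, f.1 t * φ (0 - ((0 : ℝ) • y - t)) := by simp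
  rw [e1] at hb
  rw [e2, e3]
  simp only [sub_zero, div_one] at hc2
  rw [← hc2]
  exact hb

end Trans

theorem H1.transl {f : P d} (hf : H1 f) (y : X d) : H1 (cmp (fun x => x + y) f) := by
  refine ⟨hf.u2.comp_measurePreserving (measurePreserving_add_right volume y),
    fun i => (hf.g2 i).comp_measurePreserving (measurePreserving_add_right volume y),
    fun i φ hφ hc => ?_⟩
  have h := hf.weak i _ (Trans.sm_sub hφ y) (Trans.cs_sub hc y)
  rw [← integral_add_right_eq_self _ y,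
    ← integral_add_right_eq_self (fun x => f.2 i x * φ (x - y)) y] at h
  simp only [Trans.pd_sub hφ, add_sub_cancel_right] at h
  exact h

theorem trans_est {f : P d} (hf : H1 f) (y : X d) :
    ∫ x, (f.1 (x + y) - f.1 x) ^ 2 ≤ d * ‖y‖ ^ 2 * G f f := by
  have hu : MemLp (fun x => f.1 (x + y)) 2 volume := (hf.transl y).u2
  have hw : MemLp (fun x => f.1 (x + y) - f.1 x) 2 volume := hu.sub hf.u2
  refine le_of_forall_pos_le_add fun ε hε => ?_
  obtain ⟨φ, hφ, hc, hε2⟩ := Trans.dense hw hε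
  have hp := Trans.pair hf hφ hc y
  have hm := test_memLp hφ hc
  have e1 : ∫ x, ((f.1 (x + y) - f.1 x) - φ x) ^ 2 =
      (∫ x, (f.1 (x + y) - f.1 x) ^ 2) - 2 * ((∫ x, f.1 (x + y) * φ x) - ∫ x, f.1 x * φ x)
        + ∫ t, φ t ^ 2 := by
    have i1 : Integrable (fun x => (f.1 (x + y) - f.1 x) ^ 2) volume := by
      simpa [sq] using int_mul hw hw
    have i2 : Integrable (fun x => φ x ^ 2) volume := by
      simpa [sq] using int_mul hm hm
    have i3 := int_mul hu hm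
    have i4 := int_mul hf.u2 hm
    have i5 : Integrable (fun x => 2 * (f.1 (x + y) * φ x - f.1 x * φ x)) volume :=
      (i3.sub i4).const_mul 2
    have i6 : Integrable (fun x => (f.1 (x + y) - f.1 x) ^ 2 -
        2 * (f.1 (x + y) * φ x - f.1 x * φ x)) volume := i1.sub i5
    rw [← integral_sub i3 i4, ← integral_const_mul, ← integral_sub i1 i5, ← integral_add i6 i2]
    congr 1; funext x; ring
  linarith

end Pool.Agent.H639Z.OP
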